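import Pool.Agent.Lib.MP_fb3619_al.H47.Frame

set_option autoImplicit false

/-! # Four-groups without fusion: the normal subgroup `U` -/

universe u

namespace Pool.Agent.FourGp.H47

variable {G : Type u} [Group G]

/-- The subgroup generated by the elements of odd order of `C(b)` and of `C(c)` inverted by `a`. -/
def UU (a b c : G) : Subgroup G := Subgroup.closure {v | Jm b a v ∨ Jm c a v}

namespace Hyp

variable {a b c : G}

theorem PPb (h : Hyp a b c) : PP a c b := ⟨a, c, cl_refl a, cl_refl c, h.ac.symm⟩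

theorem E_step (h : Hyp a b c) (hb : Good b a) (hc : Good c a) {u k : G}
    (hu : Jm b a u ∨ Jm c a u) (hk : PP a c (b * k)) : PP a c (b * (u * k)) := by
  have hbc : b * c = c * b := by rw [h.bc, h.cb]
  rcases hu with hu | hu
  · have hu' := h.jm_ac hu
    obtain ⟨j, hj⟩ := mul_odd h.cc hu.odd hu'.inv
    have h1 : cl c (c * u) := ⟨_, hj.symm⟩
    have h2 : b * (c * u) = (c * u) * b := by
      calc b * (c * u) = (b * c) * u := by group
        _ = c * (b * u) := by rw [hbc]; group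
        _ = c * u * b := by rw [← hu.comm]; group
    have h3 := h.prop hb (cl_refl b) h1 h2 hk
    have h4 : PP a b (c * (u * k)) := by rw [← mul_assoc]; exact h3
    exact h.swap'.prop hc (cl_refl c) (cl_refl b) hbc.symm h4
  · have h0 := h.prop hb (cl_refl b) (cl_refl c) hbc hk
    have hu' := h.swap'.jm_ac hu
    obtain ⟨j, hj⟩ := mul_odd h.bb hu.odd hu'.inv
    have h1 : cl b (b * u) := ⟨_, hj.symm⟩
    have h2 : c * (b * u) = (b * u) * c := by
      calc c * (b * u) = (c * b) * u := by group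
        _ = b * (c * u) := by rw [← hbc]; group
        _ = b * u * c := by rw [← hu.comm]; group
    have h3 := h.swap'.prop hc (cl_refl c) h1 h2 h0
    rw [← mul_assoc]; exact h3

theorem E_iff (h : Hyp a b c) (hb : Good b a) (hc : Good c a) {u : G}
    (hu : u ∈ UU a b c) : ∀ k : G, PP a c (b * k) ↔ PP a c (b * (u * k)) := by
  refine Subgroup.closure_induction (p := fun u _ => ∀ k : G, PP a c (b * k) ↔
    PP a c (b * (u * k))) ?_ ?_ ?_ ?_ hu
  · intro u hu k
    refine ⟨h.E_step hb hc hu, fun hk => ?_⟩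
    have hu' : Jm b a u⁻¹ ∨ Jm c a u⁻¹ := by
      rcases hu with hu | hu
      · exact Or.inl (hu.inv' h.aa)
      · exact Or.inr (hu.inv' h.aa)
    have := h.E_step hb hc hu' hk
    rwa [inv_mul_cancel_left] at this
  · intro k; rw [one_mul]
  · intro u v _ _ hu hv k
    rw [mul_assoc]
    exact (hv k).trans (hu (v * k))
  · intro u _ hu k
    have := hu (u⁻¹ * k)
    rw [mul_inv_cancel_left] at this
    exact this.symm

/-- `C_U(R) = 1`. -/
theorem UU_cent (h : Hyp a b c) (hb : Good b a) (hc : Good c a) {w : G} (hw : w ∈ UU a b c)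
    (hwa : w * a = a * w) (hwb : w * b = b * w) : w = 1 := by
  have h0 := (h.E_iff hb hc hw 1).1 (by rw [mul_one]; exact h.PPb)
  rw [mul_one] at h0
  obtain ⟨x, z, hx, hz, hg⟩ := h0
  have hxx := hx.sq h.aa
  have hzz := hz.sq h.cc
  obtain ⟨k, h1, h2, h3, h4⟩ := h.swap'.perp hx hz
  set y := (x * z) ^ k with hy
  have hys := h1.sq h.bb
  have hcy : ∀ r : G, b * r = r * b → w * r = r * w → y * r = r * y := by
    intro r h5 h6
    rw [hy, ← hg]
    exact comm_pow h5 h6 k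
  have hya := hcy a (by rw [h.ba, h.ab]) hwa
  have hyb := hcy b rfl hwb
  have hyb' : y = b := by
    rcases h.inv y hya hyb hys with e | e | e | e
    · exact absurd e (h1.ne_one h.b1)
    · rw [e] at h1; exact absurd h1 h.swap.nc
    · exact e
    · rw [e] at h1; exact absurd h1 h.nbc
  rw [hyb'] at h2 h4
  rw [← hg] at h4
  have hbbw : b * (b * w) = w := by rw [← mul_assoc, h.bb, one_mul]
  rw [hbbw] at h4
  have hxw : x * w * x = w⁻¹ := by
    have e1 : w = b * (x * z) := by rw [← hg, hbbw]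
    have e2 : w⁻¹ = z * x * b := by
      rw [e1, mul_inv_rev, mul_inv_rev, inv_of_sq hxx, inv_of_sq hzz, inv_of_sq h.bb]
    have h3' : b * z = z * b := by rw [hyb'] at h3; exact h3
    rw [e2]
    calc x * w * x = x * (b * (x * z)) * x := by rw [← e1]
      _ = (x * b) * x * z * x := by group
      _ = b * (x * x) * z * x := by rw [← h2]; group
      _ = (b * z) * x := by rw [hxx]; group
      _ = z * (b * x) := by rw [h3']; group
      _ = z * x * b := by rw [h2]; group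
  have hne : x ≠ b := by
    intro e
    rw [e] at hx
    exact h.nc hx
  have h5 := (h.jm_iff hb hxx (hx.ne_one h.a1) h2.symm hne hwb h4).1 hxw
  have h6 : w * w = 1 := by
    have : a * w * a = w := by rw [← hwa, mul_assoc, h.aa, mul_one]
    rw [this] at h5
    calc w * w = w⁻¹ * w := by rw [← h5]
      _ = 1 := by group
  exact h4.eq_one h6

/-- `G = C_G(R) · J_b · J_c · J_a`. -/
theorem dec (h : Hyp a b c) (g : G) : ∃ w β γ α : G, g = w * β * γ * α ∧ w * a = a * w ∧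
    w * b = b * w ∧ Jm b a β ∧ Jm c a γ ∧ Jm a b α := by
  have hy : cl b (g⁻¹ * b * g) := ⟨g, rfl⟩
  have hyy := hy.sq h.bb
  obtain ⟨k, h1, h2, h3, -⟩ := h.perp (cl_refl a) hy
  set y := g⁻¹ * b * g with hydef
  set z := (a * y) ^ k with hz
  have hzz := h1.sq h.cc
  have hz1 := h1.ne_one h.c1
  have hne : z ≠ a := by
    intro e
    rw [e] at h1
    exact h.swap'.nc.elim (h1.symm)
  have hodd : Odd' (c * z) := by
    rcases h.s1 hzz hz1 h2 hne with e | e
    · exact absurd (odd_cl h.bb hzz e) fun e' => h.ncls'' e' h1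
    · exact e
  obtain ⟨j, hj⟩ := odd_conj h.cc hzz hodd
  set α := (c * z) ^ j with hα
  have hαa : α * a = a * α := comm_pow (by rw [h.ca, h.ac]) h2 j
  have hαJ : Jm a b α :=
    h.rot.rot.jm_ac ⟨hαa, hodd.pow j, conj_inv_pow h.cc (mul_inv_self h.cc hzz) j⟩
  -- y' = α y α⁻¹ commutes with c
  set y' := α * y * α⁻¹ with hy'
  have hy'c : y' * c = c * y' := by
    have e : c = α * z * α⁻¹ := by rw [← hj]; group
    calc y' * c = (α * y * α⁻¹) * (α * z * α⁻¹) := by rw [← e]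
      _ = α * (y * z) * α⁻¹ := by group
      _ = α * (z * y) * α⁻¹ := by rw [h3]
      _ = (α * z * α⁻¹) * (α * y * α⁻¹) := by group
      _ = c * y' := by rw [← e]
  have hcy' : cl b y' := by
    have := hy.conj α⁻¹
    rwa [inv_inv] at this
  have hy's := hcy'.sq h.bb
  have hy'1 := hcy'.ne_one h.b1
  have hne' : y' ≠ c := by
    intro e
    rw [e] at hcy'
    exact h.nbc hcy'
  have hodd' : Odd' (b * y') := by
    rcases h.rot.rot.s1 hy's hy'1 hy'c hne' with e | e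
    · exact absurd (odd_cl h.aa hy's e) fun e' => h.ncls e' hcy'
    · exact e
  obtain ⟨i, hi⟩ := odd_conj h.bb hy's hodd'
  set γ := (b * y') ^ i with hγ
  have hγc : γ * c = c * γ := comm_pow (by rw [h.bc, h.cb]) hy'c i
  have hγJ : Jm c a γ :=
    h.rot.jm_ac ⟨hγc, hodd'.pow i, conj_inv_pow h.bb (mul_inv_self h.bb hy's) i⟩
  have hb : (g * α⁻¹ * γ⁻¹) * b = b * (g * α⁻¹ * γ⁻¹) := by
    apply comm_conj
    calc (g * α⁻¹ * γ⁻¹)⁻¹ * b * (g * α⁻¹ * γ⁻¹)
        = γ * (α * (g⁻¹ * b * g) * α⁻¹) * γ⁻¹ := by group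
      _ = γ * (γ⁻¹ * b * γ) * γ⁻¹ := by rw [hi]
      _ = b := by group
  obtain ⟨w, β, e, hwa, hwb, hβ⟩ := h.decC hb
  refine ⟨w, β, γ, α, ?_, hwa, hwb, hβ, hγJ, hαJ⟩
  rw [← e]
  group

theorem UU_swap (a b c : G) : UU a b c = UU a c b := by
  unfold UU
  congr 1
  ext v
  exact or_comm

theorem jm_w (h : Hyp a b c) {w v : G} (hwa : w * a = a * w) (hwb : w * b = b * w)
    (hv : Jm b a v) : Jm b a (w⁻¹ * v * w) := by
  refine ⟨?_, hv.odd.conj w, ?_⟩
  · have h2 : Commute w b := hwb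
    have h3 : Commute v b := hv.comm
    exact (h2.inv_left.mul_left h3).mul_left h2
  · calc a * (w⁻¹ * v * w) * a = (a * w⁻¹) * v * (w * a) := by group
      _ = w⁻¹ * (a * v * a) * w := by rw [hwa, ← comm_inv hwa]; group
      _ = (w⁻¹ * v * w)⁻¹ := by rw [hv.inv]; group

theorem UU_w (h : Hyp a b c) {w : G} (hwa : w * a = a * w) (hwb : w * b = b * w) {u : G}
    (hu : u ∈ UU a b c) : w⁻¹ * u * w ∈ UU a b c := by
  have hwc := h.comm_c hwa hwb
  refine Subgroup.closure_induction (p := fun u _ => w⁻¹ * u * w ∈ UU a b c) ?_ ?_ ?_ ?_ hu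
  · intro v hv
    apply Subgroup.subset_closure
    rcases hv with hv | hv
    · exact Or.inl (h.jm_w hwa hwb hv)
    · exact Or.inr (h.swap'.jm_w hwa hwc hv)
  · have : w⁻¹ * 1 * w = (1 : G) := by group
    rw [this]; exact Subgroup.one_mem _
  · intro x y _ _ hx hy
    have : w⁻¹ * (x * y) * w = (w⁻¹ * x * w) * (w⁻¹ * y * w) := by group
    rw [this]; exact Subgroup.mul_mem _ hx hy
  · intro x _ hx
    have : w⁻¹ * x⁻¹ * w = (w⁻¹ * x * w)⁻¹ := by group
    rw [this]; exact Subgroup.inv_mem _ hx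

theorem UU_α1 (h : Hyp a b c) {α β : G} (hα : Jm a b α) (hβ : Jm b a β) :
    α⁻¹ * β * α ∈ UU a b c := by
  obtain ⟨j, hj⟩ := hβ.odd.sqrt
  set β' := β ^ j with hβ'
  have hJ : Jm b a β' := hβ.pow h.aa j
  obtain ⟨w, β₂, γ₂, α₂, e, hwa, hwb, h1, h2, h3⟩ := h.dec (α⁻¹ * β')
  have hα₂ : a * α₂ * a = α₂ := by
    rw [← h3.comm, mul_assoc, h.aa, mul_one]
  have hα' : a * α⁻¹ * a = α⁻¹ := by
    rw [← comm_inv hα.comm, mul_assoc, h.aa, mul_one]
  have hw' : a * w * a = w := by rw [← hwa, mul_assoc, h.aa, mul_one]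
  have e2 : α⁻¹ * β'⁻¹ = w * β₂⁻¹ * γ₂⁻¹ * α₂ := by
    have e3 : a * (α⁻¹ * β') * a = a * (w * β₂ * γ₂ * α₂) * a := by rw [e]
    have e4 : a * (α⁻¹ * β') * a = (a * α⁻¹ * a) * (a * β' * a) := by
      calc a * (α⁻¹ * β') * a = a * α⁻¹ * 1 * β' * a := by group
        _ = a * α⁻¹ * (a * a) * β' * a := by rw [h.aa]
        _ = (a * α⁻¹ * a) * (a * β' * a) := by group
    have e5 : a * (w * β₂ * γ₂ * α₂) * a =
        (a * w * a) * (a * β₂ * a) * (a * γ₂ * a) * (a * α₂ * a) := by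
      calc a * (w * β₂ * γ₂ * α₂) * a = a * w * 1 * β₂ * 1 * γ₂ * 1 * α₂ * a := by group
        _ = a * w * (a * a) * β₂ * (a * a) * γ₂ * (a * a) * α₂ * a := by rw [h.aa]
        _ = _ := by group
    rw [e4, e5, hα', hJ.inv, hw', h1.inv, h2.inv, hα₂] at e3
    exact e3
  have e6 : α⁻¹ * β * α = w * (β₂ * γ₂ * γ₂ * β₂) * w⁻¹ := by
    calc α⁻¹ * β * α = α⁻¹ * (β' * β') * α := by rw [hj]
      _ = (α⁻¹ * β') * (α⁻¹ * β'⁻¹)⁻¹ := by group
      _ = (w * β₂ * γ₂ * α₂) * (w * β₂⁻¹ * γ₂⁻¹ * α₂)⁻¹ := by rw [e, e2]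
      _ = w * (β₂ * γ₂ * γ₂ * β₂) * w⁻¹ := by group
  rw [e6]
  have hm : β₂ * γ₂ * γ₂ * β₂ ∈ UU a b c := by
    have hb : β₂ ∈ UU a b c := Subgroup.subset_closure (Or.inl h1)
    have hc : γ₂ ∈ UU a b c := Subgroup.subset_closure (Or.inr h2)
    exact Subgroup.mul_mem _ (Subgroup.mul_mem _ (Subgroup.mul_mem _ hb hc) hc) hb
  have := h.UU_w (comm_inv hwa) (comm_inv hwb) hm
  rwa [inv_inv] at this

theorem UU_α (h : Hyp a b c) {α : G} (hα : Jm a b α) {u : G} (hu : u ∈ UU a b c) :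
    α⁻¹ * u * α ∈ UU a b c := by
  refine Subgroup.closure_induction (p := fun u _ => α⁻¹ * u * α ∈ UU a b c) ?_ ?_ ?_ ?_ hu
  · intro v hv
    rcases hv with hv | hv
    · exact h.UU_α1 hα hv
    · rw [UU_swap]
      exact h.swap'.UU_α1 (h.swap.jm_ac hα) hv
  · have : α⁻¹ * 1 * α = (1 : G) := by group
    rw [this]; exact Subgroup.one_mem _
  · intro x y _ _ hx hy
    have : α⁻¹ * (x * y) * α = (α⁻¹ * x * α) * (α⁻¹ * y * α) := by group
    rw [this]; exact Subgroup.mul_mem _ hx hy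
  · intro x _ hx
    have : α⁻¹ * x⁻¹ * α = (α⁻¹ * x * α)⁻¹ := by group
    rw [this]; exact Subgroup.inv_mem _ hx

theorem UU_normal (h : Hyp a b c) : (UU a b c).Normal := by
  refine ⟨fun u hu g => ?_⟩
  obtain ⟨w, β, γ, α, e, hwa, hwb, h1, h2, h3⟩ := h.dec g⁻¹
  have hb : β ∈ UU a b c := Subgroup.subset_closure (Or.inl h1)
  have hc : γ ∈ UU a b c := Subgroup.subset_closure (Or.inr h2)
  have e1 := h.UU_w hwa hwb hu
  have e2 : γ⁻¹ * (β⁻¹ * (w⁻¹ * u * w) * β) * γ ∈ UU a b c :=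
    Subgroup.mul_mem _ (Subgroup.mul_mem _ (Subgroup.inv_mem _ hc) (Subgroup.mul_mem _
      (Subgroup.mul_mem _ (Subgroup.inv_mem _ hb) e1) hb)) hc
  have e3 := h.UU_α h3 e2
  have e4 : g * u * g⁻¹ = α⁻¹ * (γ⁻¹ * (β⁻¹ * (w⁻¹ * u * w) * β) * γ) * α := by
    have e5 : g = (w * β * γ * α)⁻¹ := by rw [← e, inv_inv]
    rw [e5]
    group
  rw [e4]
  exact e3

/-- The elements of `U` have odd order. -/
theorem UU_odd (h : Hyp a b c) (hb : Good b a) (hc : Good c a) {u : G} (hu : u ∈ UU a b c) :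
    Odd' u := by
  have hN := h.UU_normal
  obtain ⟨n, hn, hun⟩ := h.tor u
  have hpos : 0 < orderOf u :=
    orderOf_pos_iff.2 (isOfFinOrder_iff_pow_eq_one.2 ⟨n, hn, hun⟩)
  rcases Nat.even_or_odd' (orderOf u) with ⟨m, hm | hm⟩
  · exfalso
    set t := u ^ m with ht
    have ht2 : t * t = 1 := by rw [ht, ← pow_add, ← two_mul, ← hm, pow_orderOf_eq_one]
    have ht1 : t ≠ 1 := by
      intro e
      have h1 := orderOf_dvd_of_pow_eq_one e
      rw [hm] at h1
      have h2 := Nat.le_of_dvd (by omega) h1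
      omega
    have htU : t ∈ UU a b c := Subgroup.pow_mem _ hu m
    have key : ∀ s : G, s * a = a * s → s * b = b * s → s ≠ 1 → ¬ cl s t := by
      rintro s hsa hsb hs1 ⟨g, hg⟩
      have hs : s ∈ UU a b c := by
        have h1 := hN.conj_mem t htU g
        have e : g * t * g⁻¹ = s := by rw [hg]; group
        rwa [e] at h1
      exact hs1 (h.UU_cent hb hc hs hsa hsb)
    rcases h.cls ht2 ht1 with e | e | e
    · exact key a rfl (by rw [h.ab, h.ba]) h.a1 e
    · exact key b (by rw [h.ab, h.ba]) rfl h.b1 e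
    · exact key c (by rw [h.ca, h.ac]) (by rw [h.cb, h.bc]) h.c1 e
  · exact ⟨m, by rw [← hm, pow_orderOf_eq_one]⟩

/-- `G = C_G(a) U`. -/
theorem dec_cent (h : Hyp a b c) (g : G) : ∃ k u : G, g = k * u ∧ k * a = a * k ∧
    u ∈ UU a b c := by
  obtain ⟨w, β, γ, α, e, hwa, hwb, h1, h2, h3⟩ := h.dec g
  have hb : β ∈ UU a b c := Subgroup.subset_closure (Or.inl h1)
  have hc : γ ∈ UU a b c := Subgroup.subset_closure (Or.inr h2)
  refine ⟨w * α, α⁻¹ * (β * γ) * α, by rw [e]; group, ?_,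
    h.UU_α h3 (Subgroup.mul_mem _ hb hc)⟩
  have e1 : Commute w a := hwa
  have e2 : Commute α a := h3.comm
  exact e1.mul_left e2

end Hyp

end Pool.Agent.FourGp.H47
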