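import Pool.Agent.Lib.MP_fb3619_al.Base3
import Pool.Agent.Lib.MP_fb3619_al.H47.Core
import Pool.Agent.Lib.MP_fb3619_al.H99.Loc

set_option autoImplicit false

/-! # Four-groups without fusion: local finiteness -/

universe u

namespace Pool.Agent.FourGp.H47

open Pool.Agent.FourGp
open Pool.Agent.FourGp.H99 (LF LF_ext LF_of_surj shunkov)

variable {G : Type u} [Group G] {a b c : G}

theorem conj2 {s x y : G} (hs : s * s = 1) : s * (x * y) * s = (s * x * s) * (s * y * s) := by
  calc s * (x * y) * s = s * x * 1 * y * s := by group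
    _ = s * x * (s * s) * y * s := by rw [hs]
    _ = (s * x * s) * (s * y * s) := by group

/-- `C_G(a)` is locally finite if `C_G(R)` is finite. -/
theorem Hyp.LF_cent (h : Hyp a b c) (hfin : {w : G | w * a = a * w ∧ w * b = b * w}.Finite) :
    LF (Subgroup.centralizer ({a} : Set G)) := by
  have hab : b * a = a * b := by rw [h.ba, h.ab]
  let σ : Subgroup.centralizer ({a} : Set G) →* Subgroup.centralizer ({a} : Set G) :=
    { toFun := fun x => ⟨b * x.1 * b, by
        have h1 : Commute x.1 a := Subgroup.mem_centralizer_singleton_iff.1 x.2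
        have h2 : Commute b a := hab
        exact Subgroup.mem_centralizer_singleton_iff.2 ((h2.mul_left h1).mul_left h2)⟩
      map_one' := by
        apply Subtype.ext
        change b * 1 * b = 1
        rw [mul_one, h.bb]
      map_mul' := by
        intro x y
        apply Subtype.ext
        exact conj2 h.bb }
  refine shunkov (fun g => ?_) σ {w | w.1 * b = b * w.1} ?_ {v | Jm a b v.1} ?_ ?_
  · obtain ⟨n, hn, e⟩ := h.tor g.1
    exact ⟨n, hn, Subtype.ext e⟩
  · refine Set.Finite.of_finite_image (f := Subtype.val) (hfin.subset ?_)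
      Subtype.val_injective.injOn
    rintro _ ⟨w, hw, rfl⟩
    exact ⟨Subgroup.mem_centralizer_singleton_iff.1 w.2, hw⟩
  · intro v hv
    apply Subtype.ext
    exact hv.inv
  · intro g
    have hg : g.1 * a = a * g.1 := Subgroup.mem_centralizer_singleton_iff.1 g.2
    obtain ⟨w, v, e, hwb, hwa, hv⟩ := h.swap.decC hg
    exact ⟨⟨w, Subgroup.mem_centralizer_singleton_iff.2 hwa⟩, hwb,
      ⟨v, Subgroup.mem_centralizer_singleton_iff.2 hv.comm⟩, hv, Subtype.ext e⟩

/-- The main step. -/
theorem Hyp.LF_all (hM : MainS.{u}) (h : Hyp a b c) (hb : Good b a) (hc : Good c a)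
    (hfin : LF (Subgroup.centralizer ({a} : Set G))) : LF G := by
  have hN := h.UU_normal
  have hab : a * b = b * a := by rw [h.ba, h.ab]
  have h1 : LF (UU a b c) := by
    refine hM (UU a b c) (MulAut.conjNormal a) (MulAut.conjNormal b) ⟨?_, ?_, ?_, ?_, ?_⟩
    · intro k
      apply Subtype.ext
      rw [MulAut.conjNormal_apply, MulAut.conjNormal_apply, inv_of_sq h.aa]
      calc a * (a * k.1 * a) * a = (a * a) * k.1 * (a * a) := by group
        _ = k.1 := by rw [h.aa, one_mul, mul_one]
    · intro k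
      apply Subtype.ext
      rw [MulAut.conjNormal_apply, MulAut.conjNormal_apply, inv_of_sq h.bb]
      calc b * (b * k.1 * b) * b = (b * b) * k.1 * (b * b) := by group
        _ = k.1 := by rw [h.bb, one_mul, mul_one]
    · intro k
      apply Subtype.ext
      rw [MulAut.conjNormal_apply, MulAut.conjNormal_apply, MulAut.conjNormal_apply,
        MulAut.conjNormal_apply, inv_of_sq h.aa, inv_of_sq h.bb]
      calc a * (b * k.1 * b) * a = (a * b) * k.1 * (b * a) := by group
        _ = (b * a) * k.1 * (a * b) := by rw [hab]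
        _ = b * (a * k.1 * a) * b := by group
    · intro k
      obtain ⟨n, hn⟩ := h.UU_odd hb hc k.2
      exact ⟨n, Subtype.ext hn⟩
    · intro k h2 h3
      have e2 := congrArg Subtype.val h2
      have e3 := congrArg Subtype.val h3
      rw [MulAut.conjNormal_apply, inv_of_sq h.aa] at e2
      rw [MulAut.conjNormal_apply, inv_of_sq h.bb] at e3
      apply Subtype.ext
      refine h.UU_cent hb hc k.2 ?_ ?_
      · calc k.1 * a = (a * k.1 * a) * a := by rw [e2]
          _ = a * k.1 * (a * a) := by group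
          _ = a * k.1 := by rw [h.aa, mul_one]
      · calc k.1 * b = (b * k.1 * b) * b := by rw [e3]
          _ = b * k.1 * (b * b) := by group
          _ = b * k.1 := by rw [h.bb, mul_one]
  refine LF_ext (UU a b c) h1 ?_
  refine LF_of_surj ((QuotientGroup.mk' (UU a b c)).comp
    (Subgroup.centralizer ({a} : Set G)).subtype) ?_ hfin
  intro q
  obtain ⟨g, rfl⟩ := QuotientGroup.mk'_surjective (UU a b c) q
  obtain ⟨k, u, e, hk, hu⟩ := h.dec_cent g
  refine ⟨⟨k, Subgroup.mem_centralizer_singleton_iff.2 hk⟩, ?_⟩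
  change QuotientGroup.mk' (UU a b c) k = QuotientGroup.mk' (UU a b c) g
  rw [e, map_mul]
  have h2 : QuotientGroup.mk' (UU a b c) u = 1 := by
    rw [← MonoidHom.mem_ker, QuotientGroup.ker_mk']
    exact hu
  rw [h2, mul_one]

/-- `u` has odd order, centralizes `r` and is inverted by the elements of `R` outside `⟨r⟩`. -/
def InvR (R : Subgroup G) (r u : G) : Prop :=
  u * r = r * u ∧ (∃ n : ℕ, u ^ (2 * n + 1) = 1) ∧
    ∀ s ∈ R, s ≠ 1 → s ≠ r → s⁻¹ * u * s = u⁻¹

/-- The elements of odd order of `C_G(r)` inverted by `R` commute. -/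
def GoodR (R : Subgroup G) (r : G) : Prop :=
  ∀ u v : G, InvR R r u → InvR R r v → u * v = v * u

theorem fourR (R : Subgroup G) (h4 : Nat.card R = 4) (hR : ∀ r ∈ R, r * r = 1) {r s : G}
    (hr : r ∈ R) (hs : s ∈ R) (hr1 : r ≠ 1) (hs1 : s ≠ 1) (hrs : r ≠ s) :
    r * s = s * r ∧ r * s ≠ 1 ∧ ∀ x ∈ R, x = 1 ∨ x = r * s ∨ x = r ∨ x = s := by
  classical
  have hrr := hR r hr
  have hss := hR s hs
  have hrs' := hR _ (R.mul_mem hr hs)
  have hc : r * s = s * r := by
    calc r * s = 1 * (r * s) * 1 := by group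
      _ = (s * s) * (r * s) * (r * r) := by rw [hss, hrr]
      _ = s * (s * r * (s * r)) * r := by group
      _ = s * r := by rw [hR _ (R.mul_mem hs hr)]; group
  have h1 : r * s ≠ 1 := by
    intro e
    apply hrs
    calc r = r * (s * s) := by rw [hss, mul_one]
      _ = (r * s) * s := by group
      _ = s := by rw [e, one_mul]
  refine ⟨hc, h1, fun x hx => ?_⟩
  have hfin : (R : Set G).Finite := by
    have : Finite R := Nat.finite_of_card_ne_zero (by rw [h4]; norm_num)
    exact Set.toFinite _
  have hsub : (({1, r * s, r, s} : Finset G) : Set G) ⊆ (R : Set G) := by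
    intro y hy
    simp only [Finset.coe_insert, Finset.coe_singleton, Set.mem_insert_iff,
      Set.mem_singleton_iff] at hy
    rcases hy with rfl | rfl | rfl | rfl
    · exact R.one_mem
    · exact R.mul_mem hr hs
    · exact hr
    · exact hs
  have hcard : (({1, r * s, r, s} : Finset G)).card = 4 := by
    rw [Finset.card_insert_of_notMem, Finset.card_insert_of_notMem, Finset.card_pair hrs]
    · simp only [Finset.mem_insert, Finset.mem_singleton, not_or]
      refine ⟨fun e => hs1 ?_, fun e => hr1 ?_⟩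
      · simpa using e
      · simpa using e
    · simp only [Finset.mem_insert, Finset.mem_singleton, not_or]
      exact ⟨fun e => h1 e.symm, fun e => hr1 e.symm, fun e => hs1 e.symm⟩
  have heq := Set.eq_of_subset_of_ncard_le hsub (by
    rw [Set.ncard_coe_finset, hcard]
    have : (R : Set G).ncard = Nat.card R := rfl
    rw [this, h4]) hfin
  have hx' : x ∈ (({1, r * s, r, s} : Finset G) : Set G) := by rw [heq]; exact hx
  simpa using hx'

/-- Theorem D: `R` a four-group, all involutions of `C_G(R)` lie in `R`, `N_G(R) = C_G(R)`, for two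
elements `r, s` of `R` the inverted elements of odd order commute, and the centralizer of the third
involution is locally finite (or `C_G(R)` is finite). -/
def TheoDS : Prop := ∀ (G : Type u) [Group G] (R : Subgroup G),
  (∀ g : G, ∃ n : ℕ, 0 < n ∧ g ^ n = 1) → Nat.card R = 4 → (∀ r ∈ R, r * r = 1) →
  (∀ g ∈ Subgroup.centralizer (R : Set G), g * g = 1 → g ∈ R) →
  (∀ g : G, (∀ r ∈ R, g⁻¹ * r * g ∈ R) → g ∈ Subgroup.centralizer (R : Set G)) →
  ∀ r ∈ R, ∀ s ∈ R, r ≠ 1 → s ≠ 1 → r ≠ s → GoodR R r → GoodR R s →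
  (Finite (Subgroup.centralizer (R : Set G)) ∨ LF (Subgroup.centralizer ({r * s} : Set G))) →
  ∀ S : Subgroup G, S.FG → Finite S

theorem hyp_of (R : Subgroup G) (tor : ∀ g : G, ∃ n : ℕ, 0 < n ∧ g ^ n = 1)
    (h4 : Nat.card R = 4) (hR : ∀ r ∈ R, r * r = 1)
    (hodd : ∀ g ∈ Subgroup.centralizer (R : Set G), g * g = 1 → g ∈ R)
    (hnor : ∀ g : G, (∀ r ∈ R, g⁻¹ * r * g ∈ R) → g ∈ Subgroup.centralizer (R : Set G))
    {r s : G} (hr : r ∈ R) (hs : s ∈ R) (hr1 : r ≠ 1) (hs1 : s ≠ 1) (hrs : r ≠ s) :
    Hyp (r * s) r s ∧ ∀ w : G, w * (r * s) = (r * s) * w → w * r = r * w →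
      w ∈ Subgroup.centralizer (R : Set G) := by
  obtain ⟨hc, h1, hall⟩ := fourR R h4 hR hr hs hr1 hs1 hrs
  have hrr := hR r hr
  have hss := hR s hs
  have hrs' := hR _ (R.mul_mem hr hs)
  have hcen : ∀ w : G, w * (r * s) = (r * s) * w → w * r = r * w →
      w ∈ Subgroup.centralizer (R : Set G) := by
    intro w hw1 hw2
    rw [Subgroup.mem_centralizer_iff]
    intro x hx
    have c1 : Commute w (r * s) := hw1
    have c2 : Commute w r := hw2
    have c3 : Commute w s := by
      have : s = r⁻¹ * (r * s) := by group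
      rw [this]
      exact c2.inv_right.mul_right c1
    rcases hall x hx with rfl | rfl | rfl | rfl
    · group
    · exact hw1.symm
    · exact hw2.symm
    · exact c3.eq.symm
  have hcen' : ∀ w ∈ Subgroup.centralizer (R : Set G), ∀ x ∈ R, w * x = x * w := by
    intro w hw x hx
    rw [Subgroup.mem_centralizer_iff] at hw
    exact (hw x hx).symm
  refine ⟨?_, hcen⟩
  exact {
    tor := tor
    aa := hrs'
    bb := hrr
    cc := hss
    ab := by rw [hc, mul_assoc, hrr, mul_one]
    bc := rfl
    ca := by rw [← mul_assoc, ← hc, mul_assoc, hss, mul_one]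
    a1 := h1
    b1 := hr1
    c1 := hs1
    inv := by
      intro t ht1 ht2 ht3
      exact hall t (hodd t (hcen t ht1 ht2) ht3)
    nor := by
      intro g hg1 hg2
      have m1 : ∀ x : G, x = r * s ∨ x = r ∨ x = s → x ∈ R := by
        rintro x (rfl | rfl | rfl)
        · exact R.mul_mem hr hs
        · exact hr
        · exact hs
      have h2 : g ∈ Subgroup.centralizer (R : Set G) := by
        apply hnor
        intro x hx
        rcases hall x hx with rfl | rfl | rfl | rfl
        · have : g⁻¹ * 1 * g = (1 : G) := by group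
          rw [this]; exact R.one_mem
        · exact m1 _ hg1
        · exact m1 _ hg2
        · have e : g⁻¹ * x * g = (g⁻¹ * r * g)⁻¹ * (g⁻¹ * (r * x) * g) := by group
          rw [e]
          exact R.mul_mem (R.inv_mem (m1 _ hg2)) (m1 _ hg1)
      exact ⟨hcen' g h2 _ (R.mul_mem hr hs), hcen' g h2 _ hr⟩ }

theorem good_of (R : Subgroup G) (h4 : Nat.card R = 4) (hR : ∀ r ∈ R, r * r = 1)
    {r s : G} (hr : r ∈ R) (hs : s ∈ R) (hr1 : r ≠ 1) (hs1 : s ≠ 1) (hrs : r ≠ s)
    (hg : GoodR R r) : Good r (r * s) := by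
  obtain ⟨hc, h1, hall⟩ := fourR R h4 hR hr hs hr1 hs1 hrs
  have hrr := hR r hr
  have hss := hR s hs
  have hrs' := hR _ (R.mul_mem hr hs)
  have key : ∀ u : G, Jm r (r * s) u → InvR R r u := by
    intro u hu
    refine ⟨hu.comm, hu.odd, ?_⟩
    intro x hx hx1 hxr
    rcases hall x hx with rfl | rfl | rfl | rfl
    · exact absurd rfl hx1
    · rw [inv_of_sq hrs']; exact hu.inv
    · exact absurd rfl hxr
    · rw [inv_of_sq hss, ← hu.inv]
      calc x * u * x = x * u * 1 * x := by group
        _ = x * (u * r) * (r * x) := by rw [← hrr]; group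
        _ = x * (r * u) * (r * x) := by rw [hu.comm]
        _ = (x * r) * u * (r * x) := by group
        _ = (r * x) * u * (r * x) := by rw [hc]
  intro u v hu hv
  exact hg u v (key u hu) (key v hv)

theorem theoD (hM : MainS.{u}) : TheoDS.{u} := by
  intro G _ R tor h4 hR hodd hnor r hr s hs hr1 hs1 hrs hgr hgs hfin
  obtain ⟨h, hcen⟩ := hyp_of R tor h4 hR hodd hnor hr hs hr1 hs1 hrs
  have hb := good_of R h4 hR hr hs hr1 hs1 hrs hgr
  have hc := good_of R h4 hR hs hr hs1 hr1 hrs.symm hgs
  have e : s * r = r * s := (fourR R h4 hR hr hs hr1 hs1 hrs).1.symm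
  rw [e] at hc
  refine h.LF_all hM hb hc ?_
  rcases hfin with hfin | hfin
  · refine h.LF_cent (Set.Finite.subset (s := (Subgroup.centralizer (R : Set G) : Set G))
      (Set.toFinite _) ?_)
    rintro w ⟨hw1, hw2⟩
    exact hcen w hw1 hw2
  · exact hfin

end Pool.Agent.FourGp.H47
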