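import Pool.Agent.Lib.MP_fb3619_al.H47.Dih

set_option autoImplicit false

/-! # Four-groups without fusion: perpendiculars, centralizers, the propagation lemma -/

universe u

namespace Pool.Agent.FourGp.H47

variable {G : Type u} [Group G]

theorem mul_inv_self' {s t : G} (hs : s * s = 1) (ht : t * t = 1) :
    t * (s * t) * t = (s * t)⁻¹ := by
  rw [mul_inv_rev, inv_of_sq hs, inv_of_sq ht]
  calc t * (s * t) * t = t * s * (t * t) := by group
    _ = t * s := by rw [ht]; group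

theorem comm_of_inv {s e : G} (hs : s * s = 1) (he : e * e = 1) (h : s * e * s = e⁻¹) :
    e * s = s * e := by
  have h1 : s * e * s = e := by rw [h, inv_of_sq he]
  calc e * s = (s * e * s) * s := by rw [h1]
    _ = s * e * (s * s) := by group
    _ = s * e := by rw [hs, mul_one]

theorem comm_pow {s t r : G} (hs : s * r = r * s) (ht : t * r = r * t) (k : ℕ) :
    (s * t) ^ k * r = r * (s * t) ^ k := by
  have h1 : Commute s r := hs
  have h2 : Commute t r := ht
  exact (h1.mul_left h2).pow_left k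

theorem comm_inv {v r : G} (h : v * r = r * v) : v⁻¹ * r = r * v⁻¹ := by
  have h1 : Commute v r := h
  exact h1.inv_left

theorem conj_comm {g r : G} (h : g * r = r * g) : g⁻¹ * r * g = r := by
  rw [mul_assoc, ← h]; group

theorem comm_conj {g r : G} (h : g⁻¹ * r * g = r) : g * r = r * g := by
  calc g * r = g * (g⁻¹ * r * g) := by rw [h]
    _ = r * g := by group

namespace Hyp

variable {a b c : G}

theorem s1 (h : Hyp a b c) {t : G} (ht : t * t = 1) (hn : t ≠ 1) (hta : t * a = a * t)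
    (hne : t ≠ a) : Odd' (b * t) ∨ Odd' (c * t) := by
  rcases dih h.tor h.bb ht with ho | ⟨k, e2, e1, h3⟩
  · exact Or.inl ho
  have hba : b * a = a * b := by rw [h.ba, h.ab]
  have ea : (b * t) ^ k * a = a * (b * t) ^ k := comm_pow hba hta k
  have eb : (b * t) ^ k * b = b * (b * t) ^ k :=
    comm_of_inv h.bb e2 (conj_inv_pow h.bb (mul_inv_self h.bb ht) k)
  have hi := h.inv _ ea eb e2
  rcases h3 with h3 | ⟨l, h3⟩
  · rcases hi with e | e | e | e
    · exact absurd e e1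
    · right
      rw [e, ← mul_assoc, h.ab] at h3
      exact h3
    · exfalso
      rw [e, ← mul_assoc, h.bb, one_mul] at h3
      exact hn (h3.eq_one ht)
    · exfalso
      rw [e, ← mul_assoc, h.cb] at h3
      have h4 : a * t * (a * t) = 1 := by
        calc a * t * (a * t) = a * (t * a) * t := by group
          _ = (a * a) * (t * t) := by rw [hta]; group
          _ = 1 := by rw [h.aa, ht, one_mul]
      have h5 := h3.eq_one h4
      apply hne
      calc t = (a * a) * t := by rw [h.aa, one_mul]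
        _ = a * (a * t) := by group
        _ = a := by rw [h5, mul_one]
  · exfalso
    have hw : (b * t) ^ l * a = a * (b * t) ^ l := comm_pow hba hta l
    have hw' := conj_inv_pow h.bb (mul_inv_self h.bb ht) l
    have hr := conj_root h.bb hw' h3
    have hwa : ((b * t) ^ l)⁻¹ * a * (b * t) ^ l = a := conj_comm hw
    rcases hi with e | e | e | e
    · exact e1 e
    · rw [e, h.ba] at hr
      have := h.nor _ (Or.inl hwa) (Or.inr (Or.inr hr))
      exact h.rot.ne_ab ((conj_comm this.2).symm.trans hr)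
    · rw [e, h.bb] at hr
      exact (cl.ne_one ⟨_, rfl⟩ h.b1) hr
    · rw [e, h.bc] at hr
      have := h.nor _ (Or.inl hwa) (Or.inl hr)
      exact h.ne_ab ((conj_comm this.2).symm.trans hr).symm

/-- No fusion. -/
theorem nc (h : Hyp a b c) : ¬ cl a b := by
  rintro ⟨g, hg⟩
  set t := g⁻¹ * b * g with ht
  have htt : t * t = 1 := cl.sq ⟨g, rfl⟩ h.bb
  have ht1 : t ≠ 1 := cl.ne_one ⟨g, rfl⟩ h.b1
  have hne : t ≠ b := by
    intro e
    apply h.ne_ab
    have e2 : g⁻¹ * b * g = g⁻¹ * a * g := by rw [← ht, e]; exact hg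
    calc a = g * (g⁻¹ * a * g) * g⁻¹ := by group
      _ = g * (g⁻¹ * b * g) * g⁻¹ := by rw [e2]
      _ = b := by group
  have htb : t * b = b * t := by
    have e : t * b = g⁻¹ * (b * a) * g := by rw [ht]; nth_rewrite 2 [hg]; group
    have e' : b * t = g⁻¹ * (a * b) * g := by rw [ht]; nth_rewrite 1 [hg]; group
    rw [e, e', h.ba, h.ab]
  have key : ∀ s : G, s * b = b * s → s * s = 1 → Odd' (s * t) → (s = a ∨ s = b ∨ s = c) →
      False := by
    intro s hsb hss hodd hs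
    obtain ⟨k, hk⟩ := odd_conj hss htt hodd
    have hv : (s * t) ^ k * b = b * (s * t) ^ k := comm_pow hsb htb k
    have e1 : (g * ((s * t) ^ k)⁻¹)⁻¹ * a * (g * ((s * t) ^ k)⁻¹) = b := by
      calc (g * ((s * t) ^ k)⁻¹)⁻¹ * a * (g * ((s * t) ^ k)⁻¹)
          = (s * t) ^ k * (g⁻¹ * a * g) * ((s * t) ^ k)⁻¹ := by group
        _ = ((s * t) ^ k * b) * ((s * t) ^ k)⁻¹ := by rw [← hg]
        _ = b := by rw [hv]; group
    have e2 : (g * ((s * t) ^ k)⁻¹)⁻¹ * b * (g * ((s * t) ^ k)⁻¹) = s := by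
      calc (g * ((s * t) ^ k)⁻¹)⁻¹ * b * (g * ((s * t) ^ k)⁻¹)
          = (s * t) ^ k * (g⁻¹ * b * g) * ((s * t) ^ k)⁻¹ := by group
        _ = (s * t) ^ k * (((s * t) ^ k)⁻¹ * s * (s * t) ^ k) * ((s * t) ^ k)⁻¹ := by
            rw [hk, ← ht]
        _ = s := by group
    have h5 := h.nor (g * ((s * t) ^ k)⁻¹) (Or.inr (Or.inl e1)) (by rw [e2]; exact hs)
    have h6 := conj_comm h5.1
    rw [e1] at h6
    exact h.ne_ab h6.symm
  rcases h.rot.s1 htt ht1 htb hne with h1 | h1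
  · exact key c (by rw [h.cb, h.bc]) h.cc h1 (Or.inr (Or.inr rfl))
  · exact key a (by rw [h.ab, h.ba]) h.aa h1 (Or.inl rfl)

theorem nac (h : Hyp a b c) : ¬ cl a c := h.swap'.nc

theorem nbc (h : Hyp a b c) : ¬ cl b c := h.rot.nc

theorem ncls {t : G} (h : Hyp a b c) (h1 : cl a t) (h2 : cl b t) : False :=
  h.nc (h1.trans h2.symm)

theorem ncls' {t : G} (h : Hyp a b c) (h1 : cl a t) (h2 : cl c t) : False :=
  h.nac (h1.trans h2.symm)

theorem ncls'' {t : G} (h : Hyp a b c) (h1 : cl b t) (h2 : cl c t) : False :=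
  h.nbc (h1.trans h2.symm)

/-- Commuting involutions of different classes. -/
theorem frame (h : Hyp a b c) {x z : G} (hx : cl a x) (hz : cl c z) (hc : x * z = z * x) :
    ∃ g : G, x = g⁻¹ * a * g ∧ z = g⁻¹ * c * g := by
  obtain ⟨g, rfl⟩ := hx
  have H := h.conj g
  have hzz := hz.sq h.cc
  have hz1 := hz.ne_one h.c1
  have hne : z ≠ g⁻¹ * a * g := by
    rintro rfl
    exact h.nac ((show cl a (g⁻¹ * a * g) from ⟨g, rfl⟩).trans hz.symm)
  rcases H.s1 hzz hz1 hc.symm hne with h1 | h1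
  · exfalso
    exact h.ncls'' ((show cl b (g⁻¹ * b * g) from ⟨g, rfl⟩).trans (odd_cl H.bb hzz h1)) hz
  · obtain ⟨k, hk⟩ := odd_conj H.cc hzz h1
    have hv := comm_pow (s := g⁻¹ * c * g) (t := z) (r := g⁻¹ * a * g)
      (by rw [H.ca, H.ac]) hc.symm k
    refine ⟨g * (g⁻¹ * c * g * z) ^ k, ?_, ?_⟩
    · calc g⁻¹ * a * g = ((g⁻¹ * c * g * z) ^ k)⁻¹ * (g⁻¹ * a * g) * (g⁻¹ * c * g * z) ^ k :=
          (conj_comm hv).symm
        _ = _ := by group
    · calc z = ((g⁻¹ * c * g * z) ^ k)⁻¹ * (g⁻¹ * c * g) * (g⁻¹ * c * g * z) ^ k := hk.symm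
        _ = _ := by group

theorem frame_mul (h : Hyp a b c) {x z : G} (hx : cl a x) (hz : cl c z) (hc : x * z = z * x) :
    cl b (x * z) := by
  obtain ⟨g, rfl, rfl⟩ := h.frame hx hz hc
  exact ⟨g, by rw [← h.ac]; group⟩

/-- The common perpendicular. -/
theorem perp (h : Hyp a b c) {x y : G} (hx : cl a x) (hy : cl b y) :
    ∃ k : ℕ, cl c ((x * y) ^ k) ∧ (x * y) ^ k * x = x * (x * y) ^ k ∧
      (x * y) ^ k * y = y * (x * y) ^ k ∧ Odd' ((x * y) ^ k * (x * y)) := by
  have hxx := hx.sq h.aa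
  have hyy := hy.sq h.bb
  have hx1 := hx.ne_one h.a1
  have hy1 := hy.ne_one h.b1
  rcases dih h.tor hxx hyy with ho | ⟨k, e2, e1, h3⟩
  · exact absurd (odd_cl hxx hyy ho) fun e => h.nc ((hx.trans e).trans hy.symm)
  have ex : (x * y) ^ k * x = x * (x * y) ^ k :=
    comm_of_inv hxx e2 (conj_inv_pow hxx (mul_inv_self hxx hyy) k)
  have ey : (x * y) ^ k * y = y * (x * y) ^ k :=
    comm_of_inv hyy e2 (conj_inv_pow hyy (mul_inv_self' hxx hyy) k)
  have hcom : x * y = y * x → (x * y) ^ k = x * y := by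
    intro hxy
    have hsq : (x * y) * (x * y) = 1 := by
      calc (x * y) * (x * y) = x * (y * x) * y := by group
        _ = (x * x) * (y * y) := by rw [← hxy]; group
        _ = 1 := by rw [hxx, hyy, one_mul]
    rcases Nat.even_or_odd' k with ⟨m, hm | hm⟩
    · exfalso
      apply e1
      rw [hm, pow_mul, pow_two, hsq, one_pow]
    · rw [hm, pow_succ, pow_mul, pow_two, hsq, one_pow, one_mul]
  have hnx : (x * y) ^ k ≠ x := by
    intro e
    rw [e] at ey
    have := hcom ey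
    rw [e] at this
    apply hy1
    calc y = x⁻¹ * (x * y) := by group
      _ = 1 := by rw [← this]; group
  have hny : (x * y) ^ k ≠ y := by
    intro e
    rw [e] at ex
    have := hcom ex.symm
    rw [e] at this
    apply hx1
    calc x = (x * y) * y⁻¹ := by group
      _ = 1 := by rw [← this]; group
  have hcls : cl c ((x * y) ^ k) := by
    obtain ⟨g, hg⟩ := hx
    obtain ⟨g', hg'⟩ := hy
    have H := h.conj g
    have H' := h.rot.conj g'
    rw [← hg] at H
    rw [← hg'] at H'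
    rcases H.s1 e2 e1 ex hnx with h1 | h1
    · have h2 : cl b ((x * y) ^ k) :=
        (show cl b (g⁻¹ * b * g) from ⟨g, rfl⟩).trans (odd_cl H.bb e2 h1)
      rcases H'.s1 e2 e1 ey hny with h3 | h3
      · exact (show cl c (g'⁻¹ * c * g') from ⟨g', rfl⟩).trans (odd_cl H'.bb e2 h3)
      · exfalso
        exact h.ncls ((show cl a (g'⁻¹ * a * g') from ⟨g', rfl⟩).trans (odd_cl H'.cc e2 h3)) h2
    · exact (show cl c (g⁻¹ * c * g) from ⟨g, rfl⟩).trans (odd_cl H.cc e2 h1)
  refine ⟨k, hcls, ex, ey, ?_⟩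
  rcases h3 with h3 | ⟨l, h3⟩
  · exact h3
  · exfalso
    have hw' := conj_inv_pow hxx (mul_inv_self hxx hyy) l
    have hr := conj_root hxx hw' h3
    have h5 := h.frame_mul hx hcls ex.symm
    rw [← hr] at h5
    exact h.nc ((hx.conj _).trans h5.symm)

/-- Every involution is conjugate to `a`, `b` or `c`. -/
theorem cls (h : Hyp a b c) {t : G} (ht : t * t = 1) (hn : t ≠ 1) : cl a t ∨ cl b t ∨ cl c t := by
  have base : ∀ {a b c : G}, Hyp a b c → ∀ {t : G}, t * t = 1 → t ≠ 1 → t * a = a * t →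
      cl a t ∨ cl b t ∨ cl c t := by
    intro a b c h t ht hn hta
    by_cases hne : t = a
    · left; rw [hne]; exact cl_refl a
    rcases h.s1 ht hn hta hne with h1 | h1
    · exact Or.inr (Or.inl (odd_cl h.bb ht h1))
    · exact Or.inr (Or.inr (odd_cl h.cc ht h1))
  rcases dih h.tor h.aa ht with ho | ⟨k, e2, e1, _⟩
  · exact Or.inl (odd_cl h.aa ht ho)
  have ea : (a * t) ^ k * a = a * (a * t) ^ k :=
    comm_of_inv h.aa e2 (conj_inv_pow h.aa (mul_inv_self h.aa ht) k)
  have et : (a * t) ^ k * t = t * (a * t) ^ k :=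
    comm_of_inv ht e2 (conj_inv_pow ht (mul_inv_self' h.aa ht) k)
  rcases base h e2 e1 ea with ⟨g, hg⟩ | ⟨g, hg⟩ | ⟨g, hg⟩
  · have H := h.conj g
    rw [← hg] at H
    rcases base H ht hn et.symm with h1 | h1 | h1
    · left; rw [hg] at h1; exact (show cl a _ from ⟨g, rfl⟩).trans h1
    · right; left; exact (show cl b _ from ⟨g, rfl⟩).trans h1
    · right; right; exact (show cl c _ from ⟨g, rfl⟩).trans h1
  · have H := h.rot.conj g
    rw [← hg] at H
    rcases base H ht hn et.symm with h1 | h1 | h1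
    · right; left; rw [hg] at h1; exact (show cl b _ from ⟨g, rfl⟩).trans h1
    · right; right; exact (show cl c _ from ⟨g, rfl⟩).trans h1
    · left; exact (show cl a _ from ⟨g, rfl⟩).trans h1
  · have H := h.rot.rot.conj g
    rw [← hg] at H
    rcases base H ht hn et.symm with h1 | h1 | h1
    · right; right; rw [hg] at h1; exact (show cl c _ from ⟨g, rfl⟩).trans h1
    · left; exact (show cl a _ from ⟨g, rfl⟩).trans h1
    · right; left; exact (show cl b _ from ⟨g, rfl⟩).trans h1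

end Hyp

/-- The elements of odd order of the centralizer of `r` which are inverted by `s`. -/
structure Jm (r s v : G) : Prop where
  comm : v * r = r * v
  odd : Odd' v
  inv : s * v * s = v⁻¹

theorem Jm.inv' {r s v : G} (hs : s * s = 1) (h : Jm r s v) : Jm r s v⁻¹ := by
  refine ⟨comm_inv h.comm, h.odd.inv, ?_⟩
  have e := congrArg (fun x => x⁻¹) h.inv
  simp only [mul_inv_rev, inv_of_sq hs] at e
  rw [← e]
  group

theorem Jm.pow {r s v : G} (hs : s * s = 1) (h : Jm r s v) (k : ℕ) : Jm r s (v ^ k) := by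
  refine ⟨?_, h.odd.pow k, conj_inv_pow hs h.inv k⟩
  have h1 : Commute v r := h.comm
  exact h1.pow_left k

/-- The elements of `Jm r s` commute. -/
def Good (r s : G) : Prop := ∀ u v : G, Jm r s u → Jm r s v → u * v = v * u

namespace Hyp

variable {a b c : G}

theorem jm_ac (h : Hyp a b c) {v : G} (hv : Jm b a v) : Jm b c v := by
  refine ⟨hv.comm, hv.odd, ?_⟩
  calc c * v * c = (a * b) * v * (b * a) := by rw [h.ab, h.ba]
    _ = a * (b * v) * b * a := by group
    _ = a * v * (b * b) * a := by rw [← hv.comm]; group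
    _ = v⁻¹ := by rw [h.bb, mul_one, hv.inv]

theorem good_ac (h : Hyp a b c) (hG : Good b a) : Good b c := by
  intro u v hu hv
  exact hG u v (h.swap'.rot.jm_ac hu) (h.swap'.rot.jm_ac hv)

theorem decC (h : Hyp a b c) {g : G} (hg : g * b = b * g) :
    ∃ w v : G, g = w * v ∧ w * a = a * w ∧ w * b = b * w ∧ Jm b a v := by
  set t := g⁻¹ * a * g with ht
  have htt : t * t = 1 := cl.sq ⟨g, rfl⟩ h.aa
  have ht1 : t ≠ 1 := cl.ne_one ⟨g, rfl⟩ h.a1
  have hct : cl a t := ⟨g, rfl⟩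
  have hab : a * b = b * a := by rw [h.ab, h.ba]
  have htb : t * b = b * t := by
    have h1 : Commute g b := hg
    have h2 : Commute a b := hab
    exact (h1.inv_left.mul_left h2).mul_left h1
  have hne : t ≠ b := by
    intro e
    rw [e] at hct
    exact h.nc hct
  rcases h.rot.s1 htt ht1 htb hne with h1 | h1
  · exfalso
    exact h.ncls' hct (odd_cl h.cc htt h1)
  · obtain ⟨k, hk⟩ := odd_conj h.aa htt h1
    have hvb : (a * t) ^ k * b = b * (a * t) ^ k := comm_pow hab htb k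
    refine ⟨g * ((a * t) ^ k)⁻¹, (a * t) ^ k, by group, ?_, ?_, hvb, h1.pow k,
      conj_inv_pow h.aa (mul_inv_self h.aa htt) k⟩
    · apply comm_conj
      calc (g * ((a * t) ^ k)⁻¹)⁻¹ * a * (g * ((a * t) ^ k)⁻¹)
          = (a * t) ^ k * (g⁻¹ * a * g) * ((a * t) ^ k)⁻¹ := by group
        _ = (a * t) ^ k * (((a * t) ^ k)⁻¹ * a * (a * t) ^ k) * ((a * t) ^ k)⁻¹ := by
            rw [hk, ← ht]
        _ = a := by group
    · have h2 : Commute g b := hg
      have h3 : Commute ((a * t) ^ k) b := hvb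
      exact h2.mul_left h3.inv_left

theorem jm_conj (h : Hyp a b c) (hG : Good b a) {g v : G} (hg : g * b = b * g) (hv : Jm b a v) :
    Jm b a (g⁻¹ * v * g) := by
  obtain ⟨w, j, rfl, hwa, hwb, hj⟩ := h.decC hg
  have h1 : Jm b a (w⁻¹ * v * w) := by
    refine ⟨?_, hv.odd.conj w, ?_⟩
    · have h2 : Commute w b := hwb
      have h3 : Commute v b := hv.comm
      exact (h2.inv_left.mul_left h3).mul_left h2
    · calc a * (w⁻¹ * v * w) * a = (a * w⁻¹) * v * (w * a) := by group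
        _ = w⁻¹ * (a * v * a) * w := by rw [hwa, ← comm_inv hwa]; group
        _ = (w⁻¹ * v * w)⁻¹ := by rw [hv.inv]; group
  have h2 := hG _ _ h1 hj
  have e : (w * j)⁻¹ * v * (w * j) = w⁻¹ * v * w := by
    calc (w * j)⁻¹ * v * (w * j) = j⁻¹ * ((w⁻¹ * v * w) * j) := by group
      _ = w⁻¹ * v * w := by rw [h2]; group
  rw [e]
  exact h1

/-- For involutions `x ⟂ b`: the elements inverted by `x` are those inverted by `a`. -/
theorem jm_iff (h : Hyp a b c) (hG : Good b a) {x v : G} (hx : x * x = 1) (hx1 : x ≠ 1)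
    (hxb : x * b = b * x) (hne : x ≠ b) (hvb : v * b = b * v) (hv : Odd' v) :
    x * v * x = v⁻¹ ↔ a * v * a = v⁻¹ := by
  have key : ∀ s : G, s * s = 1 → s * b = b * s → Odd' (s * x) →
      (∀ v : G, Jm b s v ↔ Jm b a v) → (x * v * x = v⁻¹ ↔ a * v * a = v⁻¹) := by
    intro s hss hsb hodd hJ
    obtain ⟨k, hk⟩ := odd_conj hss hx hodd
    set p := (s * x) ^ k with hp
    have hpb : p * b = b * p := comm_pow hsb hxb k
    have hpb' : p⁻¹ * b = b * p⁻¹ := comm_inv hpb
    have hcp : Commute p b := hpb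
    have hcv : Commute v b := hvb
    have e1 : ∀ v : G, x * v * x = p⁻¹ * (s * (p * v * p⁻¹) * s) * p := by
      intro v; rw [← hk]; group
    have hpv : (p * v * p⁻¹) * b = b * (p * v * p⁻¹) :=
      (hcp.mul_left hcv).mul_left hcp.inv_left
    have hpo : Odd' (p * v * p⁻¹) := by
      have := hv.conj p⁻¹
      rwa [inv_inv] at this
    constructor
    · intro h1
      have h2 : Jm b s (p * v * p⁻¹) := by
        refine ⟨hpv, hpo, ?_⟩
        have e2 := e1 v
        rw [h1] at e2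
        calc s * (p * v * p⁻¹) * s = p * (p⁻¹ * (s * (p * v * p⁻¹) * s) * p) * p⁻¹ := by group
          _ = p * v⁻¹ * p⁻¹ := by rw [← e2]
          _ = (p * v * p⁻¹)⁻¹ := by group
      have h3 := h.jm_conj hG hpb ((hJ _).1 h2)
      have e3 : p⁻¹ * (p * v * p⁻¹) * p = v := by group
      rw [e3] at h3
      exact h3.inv
    · intro h1
      have h2 : Jm b a v := ⟨hvb, hv, h1⟩
      have h3 := h.jm_conj hG hpb' h2
      rw [inv_inv] at h3
      have h4 := (hJ _).2 h3
      rw [e1 v, h4.inv]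
      group
  rcases h.rot.s1 hx hx1 hxb hne with h1 | h1
  · exact key c h.cc (by rw [h.cb, h.bc]) h1 fun v =>
      ⟨fun e => h.swap'.rot.jm_ac e, fun e => h.jm_ac e⟩
  · exact key a h.aa (by rw [h.ab, h.ba]) h1 fun v => Iff.rfl

/-- The same at an arbitrary involution of the class of `b`. -/
theorem jm_glob (h : Hyp a b c) (hG : Good b a) {y x x' v : G} (hy : cl b y) (hx : x * x = 1)
    (hx1 : x ≠ 1) (hxy : x * y = y * x) (hne : x ≠ y) (hx' : x' * x' = 1) (hx1' : x' ≠ 1)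
    (hxy' : x' * y = y * x') (hne' : x' ≠ y) (hvy : v * y = y * v) (hv : Odd' v)
    (hi : x * v * x = v⁻¹) : x' * v * x' = v⁻¹ := by
  obtain ⟨k, rfl⟩ := hy
  have e : ∀ u : G, u * (k⁻¹ * b * k) = k⁻¹ * b * k * u →
      (k * u * k⁻¹) * b = b * (k * u * k⁻¹) := by
    intro u hu
    calc (k * u * k⁻¹) * b = k * (u * (k⁻¹ * b * k)) * k⁻¹ := by group
      _ = k * (k⁻¹ * b * k * u) * k⁻¹ := by rw [hu]
      _ = b * (k * u * k⁻¹) := by group
  have esq : ∀ u : G, u * u = 1 → (k * u * k⁻¹) * (k * u * k⁻¹) = 1 := by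
    intro u hu
    calc (k * u * k⁻¹) * (k * u * k⁻¹) = k * (u * u) * k⁻¹ := by group
      _ = 1 := by rw [hu]; group
  have en1 : ∀ u : G, u ≠ 1 → (k * u * k⁻¹) ≠ 1 := by
    intro u hu e'
    apply hu
    calc u = k⁻¹ * (k * u * k⁻¹) * k := by group
      _ = 1 := by rw [e']; group
  have enb : ∀ u : G, u ≠ k⁻¹ * b * k → (k * u * k⁻¹) ≠ b := by
    intro u hu e'
    apply hu
    rw [← e']
    group
  have hvo : Odd' (k * v * k⁻¹) := by
    have := hv.conj k⁻¹
    rwa [inv_inv] at this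
  have h1 := h.jm_iff hG (esq x hx) (en1 x hx1) (e x hxy) (enb x hne) (e v hvy) hvo
  have h2 := h.jm_iff hG (esq x' hx') (en1 x' hx1') (e x' hxy') (enb x' hne') (e v hvy) hvo
  have h3 : (k * x * k⁻¹) * (k * v * k⁻¹) * (k * x * k⁻¹) = (k * v * k⁻¹)⁻¹ := by
    calc (k * x * k⁻¹) * (k * v * k⁻¹) * (k * x * k⁻¹) = k * (x * v * x) * k⁻¹ := by group
      _ = (k * v * k⁻¹)⁻¹ := by rw [hi]; group
  have h4 := h2.2 (h1.1 h3)
  calc x' * v * x' = k⁻¹ * ((k * x' * k⁻¹) * (k * v * k⁻¹) * (k * x' * k⁻¹)) * k := by group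
    _ = v⁻¹ := by rw [h4]; group

end Hyp

/-- Products of two involutions of given classes. -/
def PP (a c g : G) : Prop := ∃ x z : G, cl a x ∧ cl c z ∧ g = x * z

theorem PP.symm {a c g : G} (ha : a * a = 1) (h : PP a c g) : PP c a g := by
  obtain ⟨x, z, hx, hz, rfl⟩ := h
  have hxx := hx.sq ha
  refine ⟨x⁻¹ * z * x, x, hz.conj x, hx, ?_⟩
  calc x * z = x⁻¹ * z * (x * x) := by rw [hxx, mul_one, inv_of_sq hxx]
    _ = x⁻¹ * z * x * x := by group

namespace Hyp

variable {a b c : G}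

/-- The propagation lemma. -/
theorem prop (h : Hyp a b c) (hG : Good b a) {y₀ z' k : G} (hy : cl b y₀) (hz : cl c z')
    (hyz : y₀ * z' = z' * y₀) (hk : PP a c (y₀ * k)) : PP a b (z' * k) := by
  obtain ⟨x, z, hx, hzz, hg⟩ := hk
  have hxx := hx.sq h.aa
  have hzz1 := hzz.sq h.cc
  have hy0 := hy.sq h.bb
  obtain ⟨k₁, h1, h2, h3, h4⟩ := h.swap'.perp hx hzz
  set y₁ := (x * z) ^ k₁ with hy₁
  have hy1s := h1.sq h.bb
  have hv : (y₁ * (x * z)) * y₁ = y₁ * (y₁ * (x * z)) := by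
    have : Commute y₁ y₁ := Commute.refl y₁
    have hc1 : Commute x y₁ := h2.symm
    have hc2 : Commute z y₁ := h3.symm
    exact this.mul_left (hc1.mul_left hc2)
  have hxi : x * (y₁ * (x * z)) * x = (y₁ * (x * z))⁻¹ := by
    have e : (y₁ * (x * z))⁻¹ = z * x * y₁ := by
      rw [mul_inv_rev, mul_inv_rev, inv_of_sq hxx, inv_of_sq hzz1, inv_of_sq hy1s]
    rw [e]
    calc x * (y₁ * (x * z)) * x = (x * y₁) * x * z * x := by group
      _ = y₁ * (x * x) * z * x := by rw [← h2]; group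
      _ = (y₁ * z) * x := by rw [hxx]; group
      _ = z * (y₁ * x) := by rw [h3]; group
      _ = z * x * y₁ := by rw [h2]; group
  have hx₁ : cl a (y₀ * z') := h.swap.frame_mul hy hz hyz
  have hx₁s := hx₁.sq h.aa
  obtain ⟨k₂, g1, g2, g3, -⟩ := h.perp hx₁ h1
  set z₂ := (y₀ * z' * y₁) ^ k₂ with hz₂
  have hz2s := g1.sq h.cc
  have hne1 : x ≠ y₁ := by
    intro e
    rw [← e] at h1
    exact h.ncls hx h1
  have hne2 : z₂ ≠ y₁ := by
    intro e
    rw [e] at g1
    exact h.ncls'' h1 g1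
  have hzi : z₂ * (y₁ * (x * z)) * z₂ = (y₁ * (x * z))⁻¹ :=
    h.jm_glob hG h1 hxx (hx.ne_one h.a1) h2.symm hne1 hz2s (g1.ne_one h.c1) g3 hne2 hv h4 hxi
  have ht : cl a (y₁ * z₂) := h.swap.frame_mul h1 g1 g3.symm
  have hts := ht.sq h.aa
  have hti : (y₁ * z₂) * (y₁ * (x * z)) * (y₁ * z₂) = (y₁ * (x * z))⁻¹ := by
    calc (y₁ * z₂) * (y₁ * (x * z)) * (y₁ * z₂)
        = y₁ * z₂ * ((y₁ * (x * z)) * y₁) * z₂ := by group
      _ = y₁ * z₂ * (y₁ * (y₁ * (x * z))) * z₂ := by rw [hv]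
      _ = y₁ * (z₂ * y₁) * (y₁ * (x * z)) * z₂ := by group
      _ = (y₁ * y₁) * z₂ * (y₁ * (x * z)) * z₂ := by rw [g3]; group
      _ = (y₁ * (x * z))⁻¹ := by rw [hy1s, one_mul, hzi]
  obtain ⟨k₃, hk₃⟩ := mul_odd hts h4 hti
  have hx₂ : cl a (z₂ * (x * z)) := by
    have e : (y₁ * z₂) * (y₁ * (x * z)) = z₂ * (x * z) := by
      calc (y₁ * z₂) * (y₁ * (x * z)) = y₁ * (z₂ * y₁) * (x * z) := by group
        _ = (y₁ * y₁) * z₂ * (x * z) := by rw [g3]; group
        _ = z₂ * (x * z) := by rw [hy1s, one_mul]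
    rw [← e, ← hk₃]
    exact ht.conj _
  have hy₂ : cl b (y₀ * z' * z₂) := h.frame_mul hx₁ g1 g2.symm
  have hfin : z' * k = (y₀ * z' * z₂) * (z₂ * (x * z)) := by
    calc z' * k = z' * (y₀ * y₀) * k := by rw [hy0, mul_one]
      _ = (z' * y₀) * (y₀ * k) := by group
      _ = (y₀ * z') * (x * z) := by rw [hyz, hg]
      _ = (y₀ * z') * (z₂ * z₂) * (x * z) := by rw [hz2s, mul_one]
      _ = (y₀ * z' * z₂) * (z₂ * (x * z)) := by group
  exact PP.symm h.bb ⟨_, _, hy₂, hx₂, hfin⟩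

end Hyp

end Pool.Agent.FourGp.H47
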