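import Pool.Agent.Lib.MP_fb3619_al.Main
import Pool.Agent.Lib.MP_fb3619_al.H47.TheoD

set_option autoImplicit false

/-! # Periodic groups with a four-subgroup: commuting inverted elements -/

universe u

namespace Pool.Agent.FourGp.H47

open Pool.Agent.FourGp

theorem odd_of_odd' {G : Type u} [Group G] {g : G} (h : Odd' g) : Odd (orderOf g) := by
  obtain ⟨n, hn⟩ := h
  exact Odd.of_dvd_nat ⟨n, rfl⟩ (orderOf_dvd_of_pow_eq_one hn)

theorem part4_D (G : Type u) [Group G] (hG : ∀ g : G, ∃ n : ℕ, 0 < n ∧ g ^ n = 1) (R : Subgroup G)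
    (hR4 : Nat.card R = 4) (hR2 : ∀ r ∈ R, r * r = 1)
    (hinv : ∀ g ∈ Subgroup.centralizer (R : Set G), g * g = 1 → g ∈ R)
    (hnor : ∀ g : G, (∀ r ∈ R, g⁻¹ * r * g ∈ R) → g ∈ Subgroup.centralizer (R : Set G))
    (t : G) (ht : t ∈ R) (ht1 : t ≠ 1)
    (hcomm : ∀ r ∈ R, r ≠ 1 → r ≠ t → ∀ u v : G, Odd (orderOf u) → Odd (orderOf v) →
      u * r = r * u → v * r = r * v → t⁻¹ * u * t = u⁻¹ → t⁻¹ * v * t = v⁻¹ → u * v = v * u)
    (hfin : Finite (Subgroup.centralizer (R : Set G)) ∨
      ∀ H ≤ Subgroup.centralizer ({t} : Set G), H.FG → Finite H) :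
    ∀ H : Subgroup G, H.FG → Finite H := by
  classical
  obtain ⟨r, hr, hr1, hrt⟩ : ∃ r ∈ R, r ≠ 1 ∧ r ≠ t := by
    by_contra hne
    push Not at hne
    have hsub : (R : Set G) ⊆ (({1, t} : Finset G) : Set G) := by
      intro x hx
      by_cases hx1 : x = 1
      · simp [hx1]
      · simp [hne x hx hx1]
    have h1 := Set.ncard_le_ncard hsub (Finset.finite_toSet _)
    rw [Set.ncard_coe_finset] at h1
    have h2 : (R : Set G).ncard = Nat.card R := rfl
    have h3 := Finset.card_le_two (a := (1 : G)) (b := t)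
    rw [h2, hR4] at h1
    omega
  have hrr := hR2 r hr
  have htt := hR2 t ht
  have hs : r * t ∈ R := R.mul_mem hr ht
  have hs1 : r * t ≠ 1 := by
    intro e
    apply hrt
    calc r = r * (t * t) := by rw [htt, mul_one]
      _ = (r * t) * t := by group
      _ = t := by rw [e, one_mul]
  have hrs : r ≠ r * t := by
    intro e
    exact ht1 (mul_eq_left.1 e.symm)
  have hst : r * t ≠ t := fun e => hr1 (mul_eq_right.1 e)
  have key : ∀ x ∈ R, x ≠ 1 → x ≠ t → GoodR R x := by
    intro x hx hx1 hxt u v hu hv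
    exact hcomm x hx hx1 hxt u v (odd_of_odd' hu.2.1) (odd_of_odd' hv.2.1) hu.1 hv.1
      (hu.2.2 t ht ht1 hxt.symm) (hv.2.2 t ht ht1 hxt.symm)
  have hrst : r * (r * t) = t := by rw [← mul_assoc, hrr, one_mul]
  refine theoD part3_main G R hG hR4 hR2 hinv hnor r hr (r * t) hs hr1 hs1 hrs
    (key r hr hr1 hrt) (key _ hs hs1 hst) ?_
  rw [hrst]
  rcases hfin with h | h
  · exact Or.inl h
  · right
    intro S hS
    have hfg : (S.map (Subgroup.centralizer ({t} : Set G)).subtype).FG := by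
      obtain ⟨T, hT⟩ := hS
      refine ⟨T.image (Subgroup.centralizer ({t} : Set G)).subtype, ?_⟩
      rw [Finset.coe_image, ← MonoidHom.map_closure, hT]
    have h2 : Finite ((S.map (Subgroup.centralizer ({t} : Set G)).subtype)) := by
      refine h _ ?_ hfg
      rintro x ⟨y, _, rfl⟩
      exact y.2
    have hinj : Function.Injective (Subgroup.centralizer ({t} : Set G)).subtype :=
      Subtype.val_injective
    exact Finite.of_equiv _ (S.equivMapOfInjective _ hinj).symm.toEquiv

end Pool.Agent.FourGp.H47
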